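import Pool.Agent.Lib.MP_2eed13_lc.LCA.Base

/-!
# While programs with bounded registers: macros, renaming, PBASIC
-/

set_option autoImplicit false

namespace Pool.Agent.Lib.MP_2eed13_lc.LCA.H12

open Function

variable {Bd : ℕ}

/-! ## Macros -/

/-- `i := 0` -/
def clr (i : ℕ) : Cmd := .loop i (.dec i)
/-- `j := j + i; i := 0` -/
def add (i j : ℕ) : Cmd := .loop i (.seq (.dec i) (.inc j))
/-- `j := j + i; t := t + i; i := 0` -/
def add2 (i j t : ℕ) : Cmd := .loop i (.seq (.dec i) (.seq (.inc j) (.inc t)))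
/-- `j := j + i` (temporary `t = 0`) -/
def copy (i j t : ℕ) : Cmd := .seq (add2 i j t) (add t i)
/-- `c := c - u; u := 0` -/
def sub (u c : ℕ) : Cmd := .loop u (.seq (.dec u) (.dec c))
/-- `k := k + i * j; i := 0` (temporary `t = 0`) -/
def mulAdd (i j k t : ℕ) : Cmd := .loop i (.seq (.dec i) (copy j k t))
/-- `if c ≠ 0 then (c := 0; p) else q` (temporary `t = 0`) -/
def ifD (c t : ℕ) (p q : Cmd) : Cmd :=
  .seq (.inc t) (.seq (.loop c (.seq (clr c) (.seq (.dec t) p))) (.loop t (.seq (.dec t) q)))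

theorem for_exec {i : ℕ} {p : Cmd} (S : ℕ → ℕ → ℕ) (n : ℕ) (hS : ∀ k ≤ n, S k i = k)
    (h : ∀ k < n, Exec Bd p (update (S (k + 1)) i k) (S k)) :
    Exec Bd (.loop i (.seq (.dec i) p)) (S n) (S 0) := by
  induction n with
  | zero => exact Exec.loop_zero (hS 0 le_rfl)
  | succ n ih =>
    have h1 : S (n + 1) i = n + 1 := hS (n + 1) le_rfl
    refine Exec.loop_pos (τ := S n) (by omega) ?_ (ih (fun k hk => hS k (by omega))
      (fun k hk => h k (by omega)))
    have h2 := h n (by omega)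
    refine Exec.seq (τ := update (S (n + 1)) i n) ?_ h2
    have h3 : Exec Bd (.dec i) (S (n + 1)) (update (S (n + 1)) i (S (n + 1) i - 1)) := Exec.dec
    rw [h1] at h3
    exact h3

theorem clr_exec (i : ℕ) (σ : ℕ → ℕ) : Exec Bd (clr i) σ (update σ i 0) := by
  unfold clr
  generalize hn : σ i = n
  induction n generalizing σ with
  | zero =>
    have : update σ i 0 = σ := by rw [← hn, update_eq_self]
    rw [this]; exact Exec.loop_zero hn
  | succ n ih =>
    refine Exec.loop_pos (by omega) Exec.dec ?_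
    have := ih (update σ i (σ i - 1)) (by rw [update_self]; omega)
    rwa [update_idem] at this

theorem add_exec (i j : ℕ) (hij : i ≠ j) (hj : j ≠ 0) (σ : ℕ → ℕ) (h : σ j + σ i < Bd) :
    Exec Bd (add i j) σ (update (update σ i 0) j (σ j + σ i)) := by
  have key := for_exec (Bd := Bd) (i := i) (p := .inc j)
    (fun k => update (update σ i k) j (σ j + (σ i - k))) (σ i)
    (fun k _ => by simp [update_of_ne hij])
    (fun k hk => by
      have h1 : Exec Bd (.inc j) (update (update (update σ i (k + 1)) j (σ j + (σ i - (k + 1)))) i k)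
        (update (update (update (update σ i (k + 1)) j (σ j + (σ i - (k + 1)))) i k) j
          ((update (update (update σ i (k + 1)) j (σ j + (σ i - (k + 1)))) i k) j + 1)) :=
        Exec.inc hj (by rw [update_of_ne hij.symm, update_self]; omega)
      convert h1 using 1
      funext m
      simp only [update_apply]
      split_ifs <;> first | omega | simp_all)
  have e1 : update (update σ i (σ i)) j (σ j + (σ i - σ i)) = σ := by
    simp
  beta_reduce at key
  rw [e1] at key
  unfold add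
  simpa using key

theorem add2_exec (i j t : ℕ) (hij : i ≠ j) (hit : i ≠ t) (hjt : j ≠ t) (hj : j ≠ 0) (ht : t ≠ 0)
    (σ : ℕ → ℕ) (h : σ j + σ i < Bd) (h' : σ t + σ i < Bd) :
    Exec Bd (add2 i j t) σ
      (update (update (update σ i 0) j (σ j + σ i)) t (σ t + σ i)) := by
  have key := for_exec (Bd := Bd) (i := i) (p := .seq (.inc j) (.inc t))
    (fun k => update (update (update σ i k) j (σ j + (σ i - k))) t (σ t + (σ i - k))) (σ i)
    (fun k _ => by simp [update_of_ne hij, update_of_ne hit])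
    (fun k hk => by
      set A := update (update (update (update σ i (k + 1)) j (σ j + (σ i - (k + 1)))) t
        (σ t + (σ i - (k + 1)))) i k with hA
      have hAj : A j = σ j + (σ i - (k + 1)) := by
        rw [hA, update_of_ne hij.symm, update_of_ne hjt, update_self]
      have hAt : A t = σ t + (σ i - (k + 1)) := by
        rw [hA, update_of_ne hit.symm, update_self]
      have h1 : Exec Bd (.inc j) A (update A j (A j + 1)) := Exec.inc hj (by omega)
      have h2 : Exec Bd (.inc t) (update A j (A j + 1))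
        (update (update A j (A j + 1)) t ((update A j (A j + 1)) t + 1)) :=
        Exec.inc ht (by rw [update_of_ne hjt.symm]; omega)
      have h3 := Exec.seq h1 h2
      convert h3 using 1
      funext m
      rw [update_of_ne hjt.symm, hAj, hAt, hA]
      simp only [update_apply]
      split_ifs <;> first | omega | simp_all)
  have e1 : update (update (update σ i (σ i)) j (σ j + (σ i - σ i))) t (σ t + (σ i - σ i)) = σ := by
    simp
  beta_reduce at key
  rw [e1] at key
  unfold add2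
  simpa using key

theorem copy_exec (i j t : ℕ) (hij : i ≠ j) (hit : i ≠ t) (hjt : j ≠ t) (hi : i ≠ 0) (hj : j ≠ 0)
    (ht : t ≠ 0) (σ : ℕ → ℕ) (h0 : σ t = 0) (h : σ j + σ i < Bd) :
    Exec Bd (copy i j t) σ (update σ j (σ j + σ i)) := by
  have h1 := add2_exec i j t hij hit hjt hj ht σ h (by omega)
  set A := update (update (update σ i 0) j (σ j + σ i)) t (σ t + σ i) with hA
  have hAi : A i = 0 := by
    rw [hA, update_of_ne hit, update_of_ne hij, update_self]
  have hAt : A t = σ i := by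
    rw [hA, update_self]; omega
  have h2 := add_exec (Bd := Bd) t i hit.symm hi A (by omega)
  have h3 := Exec.seq h1 h2
  unfold copy
  convert h3 using 1
  funext m
  rw [hAi, hAt, hA]
  simp only [update_apply]
  split_ifs <;> first | omega | simp_all

theorem sub_exec (u c : ℕ) (huc : u ≠ c) (σ : ℕ → ℕ) :
    Exec Bd (sub u c) σ (update (update σ u 0) c (σ c - σ u)) := by
  have key := for_exec (Bd := Bd) (i := u) (p := .dec c)
    (fun k => update (update σ u k) c (σ c - (σ u - k))) (σ u)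
    (fun k _ => by simp [update_of_ne huc])
    (fun k hk => by
      have h1 : Exec Bd (.dec c) (update (update (update σ u (k + 1)) c (σ c - (σ u - (k + 1)))) u k)
        (update (update (update (update σ u (k + 1)) c (σ c - (σ u - (k + 1)))) u k) c
          ((update (update (update σ u (k + 1)) c (σ c - (σ u - (k + 1)))) u k) c - 1)) :=
        Exec.dec
      convert h1 using 1
      funext m
      simp only [update_apply]
      split_ifs <;> first | omega | simp_all)
  have e1 : update (update σ u (σ u)) c (σ c - (σ u - σ u)) = σ := by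
    simp
  beta_reduce at key
  rw [e1] at key
  unfold sub
  simpa using key

theorem mulAdd_exec (i j k t : ℕ) (hij : i ≠ j) (hik : i ≠ k) (hit : i ≠ t) (hjk : j ≠ k)
    (hjt : j ≠ t) (hkt : k ≠ t) (hj : j ≠ 0) (hk : k ≠ 0) (ht : t ≠ 0)
    (σ : ℕ → ℕ) (h0 : σ t = 0) (h : σ k + σ i * σ j < Bd) :
    Exec Bd (mulAdd i j k t) σ (update (update σ i 0) k (σ k + σ i * σ j)) := by
  have key := for_exec (Bd := Bd) (i := i) (p := copy j k t)
    (fun l => update (update σ i l) k (σ k + (σ i - l) * σ j)) (σ i)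
    (fun l _ => by simp [update_of_ne hik])
    (fun l hl => by
      set A := update (update (update σ i (l + 1)) k (σ k + (σ i - (l + 1)) * σ j)) i l with hA
      have hAj : A j = σ j := by
        rw [hA, update_of_ne hij.symm, update_of_ne hjk, update_of_ne hij.symm]
      have hAk : A k = σ k + (σ i - (l + 1)) * σ j := by
        rw [hA, update_of_ne hik.symm, update_self]
      have hAt : A t = 0 := by
        rw [hA, update_of_ne hit.symm, update_of_ne hkt.symm, update_of_ne hit.symm, h0]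
      have e0 : (σ i - (l + 1)) * σ j + σ j = (σ i - l) * σ j := by
        have : σ i - l = (σ i - (l + 1)) + 1 := by omega
        rw [this]; ring
      have e2 : (σ i - l) * σ j ≤ σ i * σ j := Nat.mul_le_mul_right _ (Nat.sub_le _ _)
      have h1 := copy_exec (Bd := Bd) j k t hjk hjt hkt hj hk ht A hAt (by rw [hAj, hAk]; omega)
      convert h1 using 1
      funext m
      rw [hAj, hAk, add_assoc, e0, hA]
      simp only [update_apply]
      split_ifs <;> first | omega | simp_all)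
  have e1 : update (update σ i (σ i)) k (σ k + (σ i - σ i) * σ j) = σ := by
    simp
  beta_reduce at key
  rw [e1] at key
  unfold mulAdd
  simpa using key

theorem ifD_pos (c t : ℕ) (hct : c ≠ t) (ht : t ≠ 0) (p q : Cmd) (σ τ : ℕ → ℕ)
    (hB : 1 < Bd) (ht0 : σ t = 0) (hc : σ c ≠ 0) (hp : Exec Bd p (update σ c 0) τ)
    (hτc : τ c = 0) (hτt : τ t = 0) : Exec Bd (ifD c t p q) σ τ := by
  unfold ifD
  have h1 : Exec Bd (.inc t) σ (update σ t 1) := by
    have : Exec Bd (.inc t) σ (update σ t (σ t + 1)) := Exec.inc ht (by omega)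
    rwa [ht0, Nat.zero_add] at this
  have h2 := clr_exec (Bd := Bd) c (update σ t 1)
  have h3 : Exec Bd (.dec t) (update (update σ t 1) c 0) (update σ c 0) := by
    have : Exec Bd (.dec t) (update (update σ t 1) c 0)
      (update (update (update σ t 1) c 0) t ((update (update σ t 1) c 0) t - 1)) := Exec.dec
    convert this using 1
    funext m
    simp only [update_apply]
    split_ifs <;> first | omega | simp_all
  refine Exec.seq h1 (Exec.seq (τ := τ) ?_ (Exec.loop_zero hτt))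
  refine Exec.loop_pos (by rw [update_of_ne hct]; exact hc)
    (Exec.seq h2 (Exec.seq h3 hp)) (Exec.loop_zero hτc)

theorem ifD_zero (c t : ℕ) (hct : c ≠ t) (ht : t ≠ 0) (p q : Cmd) (σ τ : ℕ → ℕ)
    (hB : 1 < Bd) (ht0 : σ t = 0) (hc : σ c = 0) (hq : Exec Bd q σ τ)
    (hτt : τ t = 0) : Exec Bd (ifD c t p q) σ τ := by
  unfold ifD
  have h1 : Exec Bd (.inc t) σ (update σ t 1) := by
    have : Exec Bd (.inc t) σ (update σ t (σ t + 1)) := Exec.inc ht (by omega)
    rwa [ht0, Nat.zero_add] at this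
  have h3 : Exec Bd (.dec t) (update σ t 1) σ := by
    have : Exec Bd (.dec t) (update σ t 1) (update (update σ t 1) t ((update σ t 1) t - 1)) :=
      Exec.dec
    convert this using 1
    funext m
    simp only [update_apply]
    split_ifs <;> first | omega | simp_all
  refine Exec.seq h1 (Exec.seq (τ := update σ t 1)
    (Exec.loop_zero (by rw [update_of_ne hct]; exact hc)) ?_)
  exact Exec.loop_pos (by simp) (Exec.seq h3 hq) (Exec.loop_zero hτt)

/-! ## Black boxes and renaming -/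

/-- The variable `k` is kept in register `rho R k`; the registers `2, …, R-1` belong to the black
boxes. -/
def rho (R k : ℕ) : ℕ := if k < 2 then k else R + (k - 2)

/-- The state in which the variables have the values `v`. -/
def E (R : ℕ) (v : ℕ → ℕ) (k : ℕ) : ℕ := if k < 2 then v k else if k < R then 0 else v (k - R + 2)

theorem E_rho {R : ℕ} (hR : 2 ≤ R) (v : ℕ → ℕ) (k : ℕ) : E R v (rho R k) = v k := by
  unfold E rho
  by_cases h : k < 2
  · simp [h]
  · rw [if_neg h, if_neg (by omega), if_neg (by omega)]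
    congr 1; omega

theorem rho_ne {R : ℕ} (hR : 2 ≤ R) {k : ℕ} (hk : k ≠ 0) : rho R k ≠ 0 := by
  unfold rho; split_ifs <;> omega

theorem update_E {R : ℕ} (hR : 2 ≤ R) (v : ℕ → ℕ) (k a : ℕ) :
    update (E R v) (rho R k) a = E R (update v k a) := by
  funext m
  unfold E rho
  simp only [update_apply]
  by_cases hk : k < 2
  · rw [if_pos hk]
    by_cases hm : m < 2
    · simp [hm]
    · rw [if_neg hm, if_neg hm]
      rw [if_neg (by omega)]
      by_cases hm2 : m < R
      · rw [if_pos hm2, if_pos hm2]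
      · rw [if_neg hm2, if_neg hm2, if_neg (by omega)]
  · rw [if_neg hk]
    by_cases hm : m < 2
    · rw [if_pos hm, if_pos hm, if_neg (by omega), if_neg (by omega)]
    · rw [if_neg hm, if_neg hm]
      by_cases hm2 : m < R
      · rw [if_pos hm2, if_pos hm2, if_neg (by omega)]
      · rw [if_neg hm2, if_neg hm2]
        by_cases he : m = R + (k - 2)
        · rw [if_pos he, if_pos (by omega)]
        · rw [if_neg he, if_neg (by omega)]

/-- Renaming of registers. -/
def mp (ρ : ℕ → ℕ) : Cmd → Cmd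
  | .inc i => .inc (ρ i)
  | .dec i => .dec (ρ i)
  | .seq p q => .seq (mp ρ p) (mp ρ q)
  | .loop i p => .loop (ρ i) (mp ρ p)

theorem map_exec {R : ℕ} (hR : 2 ≤ R) {p : Cmd} {v w : ℕ → ℕ} (h : Exec Bd p v w) :
    Exec Bd (mp (rho R) p) (E R v) (E R w) := by
  induction h with
  | @inc i σ hi hb =>
    have h1 : Exec Bd (.inc (rho R i)) (E R σ)
      (update (E R σ) (rho R i) (E R σ (rho R i) + 1)) :=
      Exec.inc (rho_ne hR hi) (by rw [E_rho hR]; exact hb)
    rw [E_rho hR, update_E hR] at h1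
    exact h1
  | @dec i σ =>
    have h1 : Exec Bd (.dec (rho R i)) (E R σ)
      (update (E R σ) (rho R i) (E R σ (rho R i) - 1)) := Exec.dec
    rw [E_rho hR, update_E hR] at h1
    exact h1
  | seq _ _ ih1 ih2 => exact Exec.seq ih1 ih2
  | @loop_zero i p σ hz => exact Exec.loop_zero (by rw [E_rho hR]; exact hz)
  | @loop_pos i p σ τ υ hz _ _ ih1 ih2 =>
    exact Exec.loop_pos (by rw [E_rho hR]; exact hz) ih1 ih2

/-- The computing part of `Computes`. -/
def Box (p : Cmd) (f : ℕ → ℕ) (R c : ℕ) : Prop :=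
  ∀ (x Bd : ℕ) (σ : ℕ → ℕ), (x + 2) ^ c < Bd → σ 1 = x →
      (∀ i, 2 ≤ i → i < R → σ i = 0) → Exec Bd p σ (Function.update σ 1 (f x))

theorem box {p : Cmd} {f : ℕ → ℕ} {R0 c R : ℕ} (hb : Box p f R0 c) (hR : 2 ≤ R) (hR0 : R0 ≤ R)
    (v : ℕ → ℕ) (x : ℕ) (hx : v 1 = x) (h : (x + 2) ^ c < Bd) :
    Exec Bd p (E R v) (E R (update v 1 (f x))) := by
  have h1 := hb x Bd (E R v) h (by rw [← hx]; exact E_rho hR v 1) (fun i h2 h3 => by
    unfold E; rw [if_neg (by omega), if_pos (by omega)])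
  have h2 := update_E hR v 1 (f x)
  have h3 : rho R 1 = 1 := rfl
  rw [h3] at h2
  rw [h2] at h1
  exact h1

theorem of_E {p : Cmd} {F : ℕ → ℕ} {R K c : ℕ} (hR : 2 ≤ R) (hK : 2 ≤ K)
    (hF : ∀ x, F x ≤ (x + 2) ^ c)
    (h : ∀ (x Bd : ℕ) (v : ℕ → ℕ), (x + 2) ^ c < Bd → v 1 = x →
      (∀ i, 2 ≤ i → i < K → v i = 0) → Exec Bd p (E R v) (E R (update v 1 (F x)))) :
    Computes p F := by
  refine ⟨R + K - 2, c, by omega, hF, ?_⟩
  intro x Bd σ hB hx h0
  have h1 : E R (fun k => σ (rho R k)) = σ := by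
    funext m
    unfold E rho
    by_cases hm : m < 2
    · simp [hm]
    · rw [if_neg hm]
      by_cases hm2 : m < R
      · rw [if_pos hm2, h0 m (by omega) (by omega)]
      · rw [if_neg hm2]
        beta_reduce
        rw [if_neg (by omega)]
        congr 1; omega
  have h2 := h x Bd (fun k => σ (rho R k)) hB (by
    have h3 : rho R 1 = 1 := rfl
    simp only [h3]; exact hx) (fun i h3 h4 => by
    have h5 : rho R i = R + (i - 2) := by unfold rho; rw [if_neg (by omega)]
    simp only [h5]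
    exact h0 _ (by omega) (by omega))
  rw [← update_E hR, h1] at h2
  exact h2

/-! ## Ten variables -/

/-- The state with variables `0, …, 9` and the rest `r`. -/
def st (a0 a1 a2 a3 a4 a5 a6 a7 a8 a9 : ℕ) (r : ℕ → ℕ) : ℕ → ℕ
  | 0 => a0 | 1 => a1 | 2 => a2 | 3 => a3 | 4 => a4 | 5 => a5 | 6 => a6 | 7 => a7 | 8 => a8
  | 9 => a9 | n + 10 => r n

section St
variable (a0 a1 a2 a3 a4 a5 a6 a7 a8 a9 b : ℕ) (r : ℕ → ℕ)

@[simp] theorem st0 : st a0 a1 a2 a3 a4 a5 a6 a7 a8 a9 r 0 = a0 := rfl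
@[simp] theorem st1 : st a0 a1 a2 a3 a4 a5 a6 a7 a8 a9 r 1 = a1 := rfl
@[simp] theorem st2 : st a0 a1 a2 a3 a4 a5 a6 a7 a8 a9 r 2 = a2 := rfl
@[simp] theorem st3 : st a0 a1 a2 a3 a4 a5 a6 a7 a8 a9 r 3 = a3 := rfl
@[simp] theorem st4 : st a0 a1 a2 a3 a4 a5 a6 a7 a8 a9 r 4 = a4 := rfl
@[simp] theorem st5 : st a0 a1 a2 a3 a4 a5 a6 a7 a8 a9 r 5 = a5 := rfl
@[simp] theorem st6 : st a0 a1 a2 a3 a4 a5 a6 a7 a8 a9 r 6 = a6 := rfl
@[simp] theorem st7 : st a0 a1 a2 a3 a4 a5 a6 a7 a8 a9 r 7 = a7 := rfl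
@[simp] theorem st8 : st a0 a1 a2 a3 a4 a5 a6 a7 a8 a9 r 8 = a8 := rfl
@[simp] theorem st9 : st a0 a1 a2 a3 a4 a5 a6 a7 a8 a9 r 9 = a9 := rfl

@[simp] theorem up0 : update (st a0 a1 a2 a3 a4 a5 a6 a7 a8 a9 r) 0 b =
    st b a1 a2 a3 a4 a5 a6 a7 a8 a9 r := by
  funext k; rcases k with _|_|_|_|_|_|_|_|_|_|k <;> simp [st]
@[simp] theorem up1 : update (st a0 a1 a2 a3 a4 a5 a6 a7 a8 a9 r) 1 b =
    st a0 b a2 a3 a4 a5 a6 a7 a8 a9 r := by
  funext k; rcases k with _|_|_|_|_|_|_|_|_|_|k <;> simp [st]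
@[simp] theorem up2 : update (st a0 a1 a2 a3 a4 a5 a6 a7 a8 a9 r) 2 b =
    st a0 a1 b a3 a4 a5 a6 a7 a8 a9 r := by
  funext k; rcases k with _|_|_|_|_|_|_|_|_|_|k <;> simp [st]
@[simp] theorem up3 : update (st a0 a1 a2 a3 a4 a5 a6 a7 a8 a9 r) 3 b =
    st a0 a1 a2 b a4 a5 a6 a7 a8 a9 r := by
  funext k; rcases k with _|_|_|_|_|_|_|_|_|_|k <;> simp [st]
@[simp] theorem up4 : update (st a0 a1 a2 a3 a4 a5 a6 a7 a8 a9 r) 4 b =
    st a0 a1 a2 a3 b a5 a6 a7 a8 a9 r := by
  funext k; rcases k with _|_|_|_|_|_|_|_|_|_|k <;> simp [st]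
@[simp] theorem up5 : update (st a0 a1 a2 a3 a4 a5 a6 a7 a8 a9 r) 5 b =
    st a0 a1 a2 a3 a4 b a6 a7 a8 a9 r := by
  funext k; rcases k with _|_|_|_|_|_|_|_|_|_|k <;> simp [st]
@[simp] theorem up6 : update (st a0 a1 a2 a3 a4 a5 a6 a7 a8 a9 r) 6 b =
    st a0 a1 a2 a3 a4 a5 b a7 a8 a9 r := by
  funext k; rcases k with _|_|_|_|_|_|_|_|_|_|k <;> simp [st]
@[simp] theorem up7 : update (st a0 a1 a2 a3 a4 a5 a6 a7 a8 a9 r) 7 b =
    st a0 a1 a2 a3 a4 a5 a6 b a8 a9 r := by
  funext k; rcases k with _|_|_|_|_|_|_|_|_|_|k <;> simp [st]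
@[simp] theorem up8 : update (st a0 a1 a2 a3 a4 a5 a6 a7 a8 a9 r) 8 b =
    st a0 a1 a2 a3 a4 a5 a6 a7 b a9 r := by
  funext k; rcases k with _|_|_|_|_|_|_|_|_|_|k <;> simp [st]
@[simp] theorem up9 : update (st a0 a1 a2 a3 a4 a5 a6 a7 a8 a9 r) 9 b =
    st a0 a1 a2 a3 a4 a5 a6 a7 a8 b r := by
  funext k; rcases k with _|_|_|_|_|_|_|_|_|_|k <;> simp [st]
end St

theorem eq_st (v : ℕ → ℕ) (x : ℕ) (hx : v 1 = x) (h : ∀ i, 2 ≤ i → i < 10 → v i = 0) :
    v = st (v 0) x 0 0 0 0 0 0 0 0 (fun k => v (k + 10)) := by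
  funext k
  rcases k with _|_|_|_|_|_|_|_|_|_|k
  · rfl
  · exact hx
  · exact h 2 (by omega) (by omega)
  · exact h 3 (by omega) (by omega)
  · exact h 4 (by omega) (by omega)
  · exact h 5 (by omega) (by omega)
  · exact h 6 (by omega) (by omega)
  · exact h 7 (by omega) (by omega)
  · exact h 8 (by omega) (by omega)
  · exact h 9 (by omega) (by omega)
  · rfl

/-- Assembly with ten variables. -/
theorem of_st {p : Cmd} {F : ℕ → ℕ} {R c : ℕ} (hR : 2 ≤ R) (hF : ∀ x, F x ≤ (x + 2) ^ c)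
    (h : ∀ (x Bd a : ℕ) (r : ℕ → ℕ), (x + 2) ^ c < Bd →
      Exec Bd p (E R (st a x 0 0 0 0 0 0 0 0 r)) (E R (st a (F x) 0 0 0 0 0 0 0 0 r))) :
    Computes p F := by
  refine of_E (K := 10) hR (by norm_num) hF ?_
  intro x Bd v hB hx h0
  have h1 := eq_st v x hx h0
  have h2 := h x Bd (v 0) (fun k => v (k + 10)) hB
  rw [h1, up1]
  exact h2

/-- The same without black boxes. -/
theorem of_st' {p : Cmd} {F : ℕ → ℕ} {c : ℕ} (hF : ∀ x, F x ≤ (x + 2) ^ c)
    (h : ∀ (x Bd a : ℕ) (r : ℕ → ℕ), (x + 2) ^ c < Bd →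
      Exec Bd p (st a x 0 0 0 0 0 0 0 0 r) (st a (F x) 0 0 0 0 0 0 0 0 r)) :
    Computes (mp (rho 2) p) F :=
  of_st (R := 2) le_rfl hF (fun x Bd a r hB => map_exec le_rfl (h x Bd a r hB))

/-! ## PBASIC -/

theorem pzero : ProgZeroStatement := by
  refine ⟨clr 1, 2, 0, le_rfl, fun x => by simp, ?_⟩
  intro x Bd σ _ _ _
  exact clr_exec 1 σ

theorem psucc : ProgSuccStatement := by
  refine ⟨.inc 1, 2, 1, le_rfl, fun x => by simp, ?_⟩
  intro x Bd σ hB hx _
  have : Exec Bd (.inc 1) σ (update σ 1 (σ 1 + 1)) :=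
    Exec.inc one_ne_zero (by rw [hx]; rw [pow_one] at hB; omega)
  rw [hx] at this
  exact this

theorem pow_add_two_le (n c : ℕ) : (n + 2) ^ c + 2 ≤ (n + 2) ^ (c + 2) := by
  have h1 : 1 ≤ (n + 2) ^ c := Nat.one_le_pow _ _ (by omega)
  have h2 : (n + 2) ^ (c + 2) = (n + 2) ^ c * ((n + 2) * (n + 2)) := by ring
  rw [h2]
  have h3 : (n + 2) ^ c * 4 ≤ (n + 2) ^ c * ((n + 2) * (n + 2)) :=
    Nat.mul_le_mul_left _ (by nlinarith [Nat.zero_le n])
  omega

theorem pcomp : ProgCompStatement := by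
  rintro f g ⟨pf, Rf, cf, hRf, hf, hpf⟩ ⟨pg, Rg, cg, hRg, hg, hpg⟩
  refine ⟨.seq pg pf, max Rf Rg, cg + (cg + 2) * cf, by omega, ?_, ?_⟩
  · intro x
    calc f (g x) ≤ (g x + 2) ^ cf := hf _
      _ ≤ ((x + 2) ^ (cg + 2)) ^ cf := by
        apply Nat.pow_le_pow_left
        have := pow_add_two_le x cg
        have := hg x
        omega
      _ = (x + 2) ^ ((cg + 2) * cf) := by rw [← pow_mul]
      _ ≤ _ := Nat.pow_le_pow_right (by omega) (by omega)
  · intro x Bd σ hB hx h0
    have h1 := hpg x Bd σ (lt_of_le_of_lt (Nat.pow_le_pow_right (by omega) (by omega)) hB) hx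
      (fun i h2 h3 => h0 i h2 (by omega))
    have h2 := hpf (g x) Bd (update σ 1 (g x)) (by
      refine lt_of_le_of_lt ?_ hB
      calc (g x + 2) ^ cf ≤ ((x + 2) ^ (cg + 2)) ^ cf := by
            apply Nat.pow_le_pow_left
            have := pow_add_two_le x cg
            have := hg x
            omega
        _ = (x + 2) ^ ((cg + 2) * cf) := by rw [← pow_mul]
        _ ≤ _ := Nat.pow_le_pow_right (by omega) (by omega)) (update_self ..)
      (fun i h2 h3 => by rw [update_of_ne (by omega)]; exact h0 i h2 (by omega))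
    rw [update_idem] at h2
    exact Exec.seq h1 h2

end Pool.Agent.Lib.MP_2eed13_lc.LCA.H12
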