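import Pool.Agent.Lib.MP_2eed13_lc.LCA.H12.Pbasic

/-!
# PPAIR
-/

set_option autoImplicit false

namespace Pool.Agent.Lib.MP_2eed13_lc.LCA.H12

open Function

variable {Bd : ℕ}

/-- Pairing of the registers `2` and `1`, result in `1`; temporaries `7, 8, 9`. -/
def pairC : Cmd :=
  .seq (copy 1 7 9) (.seq (copy 2 8 9) (.seq (sub 8 7) (ifD 7 8
    (.seq (copy 1 7 9) (.seq (mulAdd 7 1 2 9) (.seq (clr 1) (add 2 1))))
    (.seq (copy 2 7 9) (.seq (mulAdd 7 2 1 9) (add 2 1))))))

theorem pairC_exec (z a b c3 c4 c5 c6 : ℕ) (r : ℕ → ℕ) (h : Nat.pair a b < Bd) (h1 : 1 < Bd) :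
    Exec Bd pairC (st z b a c3 c4 c5 c6 0 0 0 r) (st z (Nat.pair a b) 0 c3 c4 c5 c6 0 0 0 r) := by
  have ha : a ≤ Nat.pair a b := Nat.left_le_pair a b
  have hb : b ≤ Nat.pair a b := Nat.right_le_pair a b
  have s1 := copy_exec (Bd := Bd) 1 7 9 (by norm_num) (by norm_num) (by norm_num) (by norm_num)
    (by norm_num) (by norm_num) (st z b a c3 c4 c5 c6 0 0 0 r) (by simp) (by simp; omega)
  simp only [st1, st7, up7, Nat.zero_add] at s1
  have s2 := copy_exec (Bd := Bd) 2 8 9 (by norm_num) (by norm_num) (by norm_num) (by norm_num)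
    (by norm_num) (by norm_num) (st z b a c3 c4 c5 c6 b 0 0 r) (by simp) (by simp; omega)
  simp only [st2, st8, up8, Nat.zero_add] at s2
  have s3 := sub_exec (Bd := Bd) 8 7 (by norm_num) (st z b a c3 c4 c5 c6 b a 0 r)
  simp only [st8, up8, st7, up7] at s3
  refine Exec.seq s1 (Exec.seq s2 (Exec.seq s3 ?_))
  by_cases hab : a < b
  · have hp : Nat.pair a b = b * b + a := by unfold Nat.pair; rw [if_pos hab]
    refine ifD_pos 7 8 (by norm_num) (by norm_num) _ _ _ _ h1 (by simp) (by simp; omega) ?_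
      (by simp) (by simp)
    simp only [up7]
    have t1 := copy_exec (Bd := Bd) 1 7 9 (by norm_num) (by norm_num) (by norm_num) (by norm_num)
      (by norm_num) (by norm_num) (st z b a c3 c4 c5 c6 0 0 0 r) (by simp) (by simp; omega)
    simp only [st1, st7, up7, Nat.zero_add] at t1
    have t2 := mulAdd_exec (Bd := Bd) 7 1 2 9 (by norm_num) (by norm_num) (by norm_num)
      (by norm_num) (by norm_num) (by norm_num) (by norm_num) (by norm_num) (by norm_num)
      (st z b a c3 c4 c5 c6 b 0 0 r) (by simp) (by simp only [st2, st7, st1]; omega)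
    simp only [st1, st2, st7, up7, up2] at t2
    have t3 := clr_exec (Bd := Bd) 1 (st z b (a + b * b) c3 c4 c5 c6 0 0 0 r)
    simp only [up1] at t3
    have t4 := add_exec (Bd := Bd) 2 1 (by norm_num) (by norm_num)
      (st z 0 (a + b * b) c3 c4 c5 c6 0 0 0 r) (by simp only [st2, st1]; omega)
    simp only [st1, st2, up2, up1, Nat.zero_add] at t4
    rw [hp, show b * b + a = a + b * b by ring]
    exact Exec.seq t1 (Exec.seq t2 (Exec.seq t3 t4))
  · have hp : Nat.pair a b = a * a + a + b := by unfold Nat.pair; rw [if_neg hab]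
    have h0 : b - a = 0 := by omega
    rw [h0]
    refine ifD_zero 7 8 (by norm_num) (by norm_num) _ _ _ _ h1 (by simp) (by simp) ?_ (by simp)
    have t1 := copy_exec (Bd := Bd) 2 7 9 (by norm_num) (by norm_num) (by norm_num) (by norm_num)
      (by norm_num) (by norm_num) (st z b a c3 c4 c5 c6 0 0 0 r) (by simp) (by simp; omega)
    simp only [st2, st7, up7, Nat.zero_add] at t1
    have t2 := mulAdd_exec (Bd := Bd) 7 2 1 9 (by norm_num) (by norm_num) (by norm_num)
      (by norm_num) (by norm_num) (by norm_num) (by norm_num) (by norm_num) (by norm_num)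
      (st z b a c3 c4 c5 c6 a 0 0 r) (by simp) (by simp only [st2, st7, st1]; omega)
    simp only [st1, st2, st7, up7, up1] at t2
    have t4 := add_exec (Bd := Bd) 2 1 (by norm_num) (by norm_num)
      (st z (b + a * a) a c3 c4 c5 c6 0 0 0 r) (by simp only [st2, st1]; omega)
    simp only [st1, st2, up2, up1] at t4
    rw [hp, show a * a + a + b = b + a * a + a by ring]
    exact Exec.seq t1 (Exec.seq t2 t4)

theorem ppair : ProgPairStatement := by
  rintro f g ⟨pf, Rf, cf, hRf, hf, hpf⟩ ⟨pg, Rg, cg, hRg, hg, hpg⟩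
  set R := max Rf Rg with hR
  set c := 2 * (cf + cg + 2) with hc
  have hR2 : 2 ≤ R := by omega
  have hbound : ∀ x, Nat.pair (f x) (g x) ≤ (x + 2) ^ c := by
    intro x
    have h1 := Nat.pair_lt_max_add_one_sq (f x) (g x)
    have h2 : max (f x) (g x) + 1 ≤ (x + 2) ^ (cf + cg + 2) := by
      have h3 := pow_add_two_le x (cf + cg)
      have h4 : (x + 2) ^ cf ≤ (x + 2) ^ (cf + cg) := Nat.pow_le_pow_right (by omega) (by omega)
      have h5 : (x + 2) ^ cg ≤ (x + 2) ^ (cf + cg) := Nat.pow_le_pow_right (by omega) (by omega)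
      have h6 := hf x
      have h7 := hg x
      omega
    calc Nat.pair (f x) (g x) ≤ (max (f x) (g x) + 1) ^ 2 := h1.le
      _ ≤ ((x + 2) ^ (cf + cg + 2)) ^ 2 := Nat.pow_le_pow_left h2 2
      _ = (x + 2) ^ c := by rw [← pow_mul, hc]; congr 1; ring
  refine ⟨.seq (mp (rho R) (copy 1 3 9)) (.seq pf (.seq (mp (rho R) (add 1 4))
    (.seq (mp (rho R) (add 3 1)) (.seq pg (.seq (mp (rho R) (add 4 2)) (mp (rho R) pairC)))))),
    of_st (R := R) (c := c) hR2 hbound ?_⟩
  intro x Bd a r hB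
  have hx : x + 2 ≤ (x + 2) ^ c := by
    calc x + 2 = (x + 2) ^ 1 := (pow_one _).symm
      _ ≤ _ := Nat.pow_le_pow_right (by omega) (by omega)
  have hF : (x + 2) ^ cf < Bd := lt_of_le_of_lt (Nat.pow_le_pow_right (by omega) (by omega)) hB
  have hG : (x + 2) ^ cg < Bd := lt_of_le_of_lt (Nat.pow_le_pow_right (by omega) (by omega)) hB
  have hfx := hf x
  have hgx := hg x
  have hpx := hbound x
  have s1 := copy_exec (Bd := Bd) 1 3 9 (by norm_num) (by norm_num) (by norm_num) (by norm_num)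
    (by norm_num) (by norm_num) (st a x 0 0 0 0 0 0 0 0 r) (by simp) (by simp; omega)
  simp only [st1, st3, up3, Nat.zero_add] at s1
  have s2 := box (R := R) (Bd := Bd) hpf hR2 (by omega) (st a x 0 x 0 0 0 0 0 0 r) x rfl hF
  rw [up1] at s2
  have s3 := add_exec (Bd := Bd) 1 4 (by norm_num) (by norm_num)
    (st a (f x) 0 x 0 0 0 0 0 0 r) (by simp only [st4, st1]; omega)
  simp only [st1, st4, up1, up4, Nat.zero_add] at s3
  have s4 := add_exec (Bd := Bd) 3 1 (by norm_num) (by norm_num)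
    (st a 0 0 x (f x) 0 0 0 0 0 r) (by simp only [st3, st1]; omega)
  simp only [st1, st3, up1, up3, Nat.zero_add] at s4
  have s5 := box (R := R) (Bd := Bd) hpg hR2 (by omega) (st a x 0 0 (f x) 0 0 0 0 0 r) x rfl hG
  rw [up1] at s5
  have s6 := add_exec (Bd := Bd) 4 2 (by norm_num) (by norm_num)
    (st a (g x) 0 0 (f x) 0 0 0 0 0 r) (by simp only [st4, st2]; omega)
  simp only [st2, st4, up2, up4, Nat.zero_add] at s6
  have s7 := pairC_exec (Bd := Bd) a (f x) (g x) 0 0 0 0 r (by omega) (by omega)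
  exact Exec.seq (map_exec hR2 s1) (Exec.seq s2 (Exec.seq (map_exec hR2 s3)
    (Exec.seq (map_exec hR2 s4) (Exec.seq s5 (Exec.seq (map_exec hR2 s6) (map_exec hR2 s7))))))

end Pool.Agent.Lib.MP_2eed13_lc.LCA.H12
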