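import Pool.Agent.Lib.MP_2eed13_lc.LCA.H12.Pbasic

/-!
# PUNP
-/

set_option autoImplicit false

namespace Pool.Agent.Lib.MP_2eed13_lc.LCA.H12

open Function

variable {Bd : ℕ}

/-- One step of the square root loop: `k = s ^ 2 + d`, `d + e = 2 s`; `s, d, e` in `2, 3, 4`. -/
def sqStep : Cmd :=
  .seq (copy 4 7 9) (ifD 7 8 (.seq (.dec 4) (.inc 3))
    (.seq (.inc 2) (.seq (clr 3) (.seq (copy 2 4 9) (copy 2 4 9)))))

theorem sqStep_exec (h l k s d e : ℕ) (r : ℕ → ℕ) (hk : k = s * s + d) (hde : d + e = 2 * s)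
    (hB : 2 * k + 4 ≤ Bd) : Exec Bd sqStep (st h l s d e 0 0 0 0 0 r)
      (if e = 0 then st h l (s + 1) 0 (2 * (s + 1)) 0 0 0 0 0 r
        else st h l s (d + 1) (e - 1) 0 0 0 0 0 r) := by
  have hs : s ≤ k := by
    rw [hk]
    rcases Nat.eq_zero_or_pos s with h0 | h0
    · omega
    · nlinarith [Nat.le_mul_of_pos_left s h0]
  have s1 := copy_exec (Bd := Bd) 4 7 9 (by norm_num) (by norm_num) (by norm_num) (by norm_num)
    (by norm_num) (by norm_num) (st h l s d e 0 0 0 0 0 r) (by simp) (by simp only [st4, st7]; omega)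
  simp only [st4, st7, up7, Nat.zero_add] at s1
  refine Exec.seq s1 ?_
  by_cases he : e = 0
  · rw [if_pos he]
    subst he
    refine ifD_zero 7 8 (by norm_num) (by norm_num) _ _ _ _ (by omega) (by simp) (by simp) ?_
      (by simp)
    have t1 : Exec Bd (.inc 2) (st h l s d 0 0 0 0 0 0 r) (st h l (s + 1) d 0 0 0 0 0 0 r) := by
      have : Exec Bd (.inc 2) (st h l s d 0 0 0 0 0 0 r)
        (update (st h l s d 0 0 0 0 0 0 r) 2 ((st h l s d 0 0 0 0 0 0 r) 2 + 1)) :=
        Exec.inc (by norm_num) (by simp only [st2]; omega)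
      simpa using this
    have t2 := clr_exec (Bd := Bd) 3 (st h l (s + 1) d 0 0 0 0 0 0 r)
    simp only [up3] at t2
    have t3 := copy_exec (Bd := Bd) 2 4 9 (by norm_num) (by norm_num) (by norm_num) (by norm_num)
      (by norm_num) (by norm_num) (st h l (s + 1) 0 0 0 0 0 0 0 r) (by simp)
      (by simp only [st2, st4]; omega)
    simp only [st2, st4, up4, Nat.zero_add] at t3
    have t4 := copy_exec (Bd := Bd) 2 4 9 (by norm_num) (by norm_num) (by norm_num) (by norm_num)
      (by norm_num) (by norm_num) (st h l (s + 1) 0 (s + 1) 0 0 0 0 0 r) (by simp)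
      (by simp only [st2, st4]; omega)
    simp only [st2, st4, up4] at t4
    rw [show 2 * (s + 1) = s + 1 + (s + 1) by ring]
    exact Exec.seq t1 (Exec.seq t2 (Exec.seq t3 t4))
  · rw [if_neg he]
    refine ifD_pos 7 8 (by norm_num) (by norm_num) _ _ _ _ (by omega) (by simp) (by simpa using he)
      ?_ (by simp) (by simp)
    simp only [up7]
    have t1 : Exec Bd (.dec 4) (st h l s d e 0 0 0 0 0 r) (st h l s d (e - 1) 0 0 0 0 0 r) := by
      have : Exec Bd (.dec 4) (st h l s d e 0 0 0 0 0 r)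
        (update (st h l s d e 0 0 0 0 0 r) 4 ((st h l s d e 0 0 0 0 0 r) 4 - 1)) := Exec.dec
      simpa using this
    have t2 : Exec Bd (.inc 3) (st h l s d (e - 1) 0 0 0 0 0 r)
        (st h l s (d + 1) (e - 1) 0 0 0 0 0 r) := by
      have : Exec Bd (.inc 3) (st h l s d (e - 1) 0 0 0 0 0 r)
        (update (st h l s d (e - 1) 0 0 0 0 0 r) 3 ((st h l s d (e - 1) 0 0 0 0 0 r) 3 + 1)) :=
        Exec.inc (by norm_num) (by simp only [st3]; omega)
      simpa using this
    exact Exec.seq t1 t2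

/-- The loop. -/
def sqLoop : Cmd := .loop 1 (.seq (.dec 1) sqStep)

theorem sqLoop_exec (h n : ℕ) (r : ℕ → ℕ) (hB : 2 * n + 4 ≤ Bd) :
    Exec Bd sqLoop (st h n 0 0 0 0 0 0 0 0 r)
      (st h 0 (Nat.sqrt n) (n - Nat.sqrt n * Nat.sqrt n)
        (2 * Nat.sqrt n - (n - Nat.sqrt n * Nat.sqrt n)) 0 0 0 0 0 r) := by
  have key := for_exec (Bd := Bd) (i := 1) (p := sqStep)
    (fun l => st h l (Nat.sqrt (n - l)) ((n - l) - Nat.sqrt (n - l) * Nat.sqrt (n - l))
      (2 * Nat.sqrt (n - l) - ((n - l) - Nat.sqrt (n - l) * Nat.sqrt (n - l))) 0 0 0 0 0 r) n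
    (fun l _ => by simp)
    (fun l hl => by
      rw [up1]
      have e1 : n - l = (n - (l + 1)) + 1 := by omega
      rw [e1]
      have hkn : n - (l + 1) < n := by omega
      generalize n - (l + 1) = k at hkn
      set s := Nat.sqrt k with hs
      have h1 : s * s ≤ k := Nat.sqrt_le k
      have h2 : k ≤ s * s + s + s := Nat.sqrt_le_add k
      have h3 := sqStep_exec (Bd := Bd) h l k s (k - s * s) (2 * s - (k - s * s)) r (by omega)
        (by omega) (by omega)
      convert h3 using 1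
      by_cases he : 2 * s - (k - s * s) = 0
      · rw [if_pos he]
        have e2 : k + 1 = (s + 1) * (s + 1) := by
          have : k = s * s + s + s := by omega
          rw [this]; ring
        rw [e2, Nat.sqrt_eq, Nat.sub_self, Nat.sub_zero]
      · rw [if_neg he]
        have e2 : k + 1 = s * s + (k - s * s + 1) := by omega
        have e3 : Nat.sqrt (k + 1) = s := by
          rw [e2]; exact Nat.sqrt_add_eq s (by omega)
        rw [e3]
        congr 1
        all_goals omega)
  unfold sqLoop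
  simpa using key

theorem unpair_eq (n : ℕ) : n.unpair =
    if n - Nat.sqrt n * Nat.sqrt n < Nat.sqrt n then (n - Nat.sqrt n * Nat.sqrt n, Nat.sqrt n)
      else (Nat.sqrt n, n - Nat.sqrt n * Nat.sqrt n - Nat.sqrt n) := rfl

theorem sq_le (x : ℕ) : 2 * x + 4 ≤ (x + 2) ^ 2 := by nlinarith [Nat.zero_le x]

/-- left component -/
def leftC : Cmd :=
  .seq sqLoop (.seq (copy 3 5 9) (.seq (copy 2 6 9) (.seq (sub 6 5) (.seq (sub 5 3)
    (.seq (add 3 1) (.seq (clr 2) (clr 4)))))))

theorem leftC_exec (h n : ℕ) (r : ℕ → ℕ) (hB : 2 * n + 4 ≤ Bd) :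
    Exec Bd leftC (st h n 0 0 0 0 0 0 0 0 r) (st h n.unpair.1 0 0 0 0 0 0 0 0 r) := by
  have hu : n.unpair.1 = (n - Nat.sqrt n * Nat.sqrt n) -
      ((n - Nat.sqrt n * Nat.sqrt n) - Nat.sqrt n) := by
    rw [unpair_eq]
    split_ifs with h1
    · simp only []; omega
    · simp only []; omega
  have h0 := sqLoop_exec (Bd := Bd) h n r hB
  rw [hu]
  have hs : Nat.sqrt n ≤ n := Nat.sqrt_le_self n
  generalize Nat.sqrt n = s at h0 hs ⊢
  generalize he : 2 * s - (n - s * s) = e at h0
  have hd : n - s * s ≤ n := Nat.sub_le _ _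
  generalize n - s * s = d at h0 hd ⊢
  have s1 := copy_exec (Bd := Bd) 3 5 9 (by norm_num) (by norm_num) (by norm_num) (by norm_num)
    (by norm_num) (by norm_num) (st h 0 s d e 0 0 0 0 0 r) (by simp) (by simp only [st3, st5]; omega)
  simp only [st3, st5, up5, Nat.zero_add] at s1
  have s2 := copy_exec (Bd := Bd) 2 6 9 (by norm_num) (by norm_num) (by norm_num) (by norm_num)
    (by norm_num) (by norm_num) (st h 0 s d e d 0 0 0 0 r) (by simp) (by simp only [st2, st6]; omega)
  simp only [st2, st6, up6, Nat.zero_add] at s2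
  have s3 := sub_exec (Bd := Bd) 6 5 (by norm_num) (st h 0 s d e d s 0 0 0 r)
  simp only [st6, up6, st5, up5] at s3
  have s4 := sub_exec (Bd := Bd) 5 3 (by norm_num) (st h 0 s d e (d - s) 0 0 0 0 r)
  simp only [st3, up3, st5, up5] at s4
  have s5 := add_exec (Bd := Bd) 3 1 (by norm_num) (by norm_num)
    (st h 0 s (d - (d - s)) e 0 0 0 0 0 r) (by simp only [st3, st1]; omega)
  simp only [st3, st1, up3, up1, Nat.zero_add] at s5
  have s6 := clr_exec (Bd := Bd) 2 (st h (d - (d - s)) s 0 e 0 0 0 0 0 r)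
  simp only [up2] at s6
  have s7 := clr_exec (Bd := Bd) 4 (st h (d - (d - s)) 0 0 e 0 0 0 0 0 r)
  simp only [up4] at s7
  exact Exec.seq h0 (Exec.seq s1 (Exec.seq s2 (Exec.seq s3 (Exec.seq s4 (Exec.seq s5
    (Exec.seq s6 s7))))))

/-- right component -/
def rightC : Cmd :=
  .seq sqLoop (.seq (copy 2 5 9) (.seq (copy 3 6 9) (.seq (sub 6 5)
    (.seq (ifD 5 8 (add 2 1) (.seq (sub 2 3) (add 3 1))) (.seq (clr 3) (clr 4))))))

theorem rightC_exec (h n : ℕ) (r : ℕ → ℕ) (hB : 2 * n + 4 ≤ Bd) :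
    Exec Bd rightC (st h n 0 0 0 0 0 0 0 0 r) (st h n.unpair.2 0 0 0 0 0 0 0 0 r) := by
  have hu : n.unpair.2 = if (n - Nat.sqrt n * Nat.sqrt n) < Nat.sqrt n then Nat.sqrt n else
      ((n - Nat.sqrt n * Nat.sqrt n) - Nat.sqrt n) := by
    rw [unpair_eq]
    split_ifs with h1 <;> rfl
  have h0 := sqLoop_exec (Bd := Bd) h n r hB
  rw [hu]
  have hs : Nat.sqrt n ≤ n := Nat.sqrt_le_self n
  generalize Nat.sqrt n = s at h0 hs ⊢
  generalize he : 2 * s - (n - s * s) = e at h0
  have hd : n - s * s ≤ n := Nat.sub_le _ _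
  generalize n - s * s = d at h0 hd ⊢
  have s1 := copy_exec (Bd := Bd) 2 5 9 (by norm_num) (by norm_num) (by norm_num) (by norm_num)
    (by norm_num) (by norm_num) (st h 0 s d e 0 0 0 0 0 r) (by simp) (by simp only [st2, st5]; omega)
  simp only [st2, st5, up5, Nat.zero_add] at s1
  have s2 := copy_exec (Bd := Bd) 3 6 9 (by norm_num) (by norm_num) (by norm_num) (by norm_num)
    (by norm_num) (by norm_num) (st h 0 s d e s 0 0 0 0 r) (by simp) (by simp only [st3, st6]; omega)
  simp only [st3, st6, up6, Nat.zero_add] at s2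
  have s3 := sub_exec (Bd := Bd) 6 5 (by norm_num) (st h 0 s d e s d 0 0 0 r)
  simp only [st6, up6, st5, up5] at s3
  have s4 : Exec Bd (ifD 5 8 (add 2 1) (.seq (sub 2 3) (add 3 1)))
      (st h 0 s d e (s - d) 0 0 0 0 r)
      (st h (if d < s then s else d - s) 0 (if d < s then d else 0) e 0 0 0 0 0 r) := by
    by_cases hds : d < s
    · rw [if_pos hds, if_pos hds]
      refine ifD_pos 5 8 (by norm_num) (by norm_num) _ _ _ _ (by omega) (by simp)
        (by simp only [st5]; omega) ?_ (by simp) (by simp)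
      simp only [up5]
      have t := add_exec (Bd := Bd) 2 1 (by norm_num) (by norm_num)
        (st h 0 s d e 0 0 0 0 0 r) (by simp only [st2, st1]; omega)
      simp only [st2, st1, up2, up1, Nat.zero_add] at t
      exact t
    · rw [if_neg hds, if_neg hds]
      have e0 : s - d = 0 := by omega
      rw [e0]
      refine ifD_zero 5 8 (by norm_num) (by norm_num) _ _ _ _ (by omega) (by simp) (by simp) ?_
        (by simp)
      have t1 := sub_exec (Bd := Bd) 2 3 (by norm_num) (st h 0 s d e 0 0 0 0 0 r)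
      simp only [st2, up2, st3, up3] at t1
      have t2 := add_exec (Bd := Bd) 3 1 (by norm_num) (by norm_num)
        (st h 0 0 (d - s) e 0 0 0 0 0 r) (by simp only [st3, st1]; omega)
      simp only [st3, st1, up3, up1, Nat.zero_add] at t2
      exact Exec.seq t1 t2
  have s5 := clr_exec (Bd := Bd) 3
    (st h (if d < s then s else d - s) 0 (if d < s then d else 0) e 0 0 0 0 0 r)
  simp only [up3] at s5
  have s6 := clr_exec (Bd := Bd) 4 (st h (if d < s then s else d - s) 0 0 e 0 0 0 0 0 r)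
  simp only [up4] at s6
  exact Exec.seq h0 (Exec.seq s1 (Exec.seq s2 (Exec.seq s3 (Exec.seq s4 (Exec.seq s5 s6)))))

theorem punp : ProgUnpairStatement := by
  constructor
  · refine ⟨_, of_st' (c := 2) (p := leftC) ?_ ?_⟩
    · intro x
      have := Nat.unpair_left_le x
      have := sq_le x
      omega
    · intro x Bd a r hB
      have := sq_le x
      exact leftC_exec a x r (by omega)
  · refine ⟨_, of_st' (c := 2) (p := rightC) ?_ ?_⟩
    · intro x
      have := Nat.unpair_right_le x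
      have := sq_le x
      omega
    · intro x Bd a r hB
      have := sq_le x
      exact rightC_exec a x r (by omega)

end Pool.Agent.Lib.MP_2eed13_lc.LCA.H12
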