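import Pool.Agent.Lib.MP_2eed13_lc.LCA.H12.Ppair
import Pool.Agent.Lib.MP_2eed13_lc.LCA.H12.Punp

/-!
# PPREC and MACHINE
-/

set_option autoImplicit false

namespace Pool.Agent.Lib.MP_2eed13_lc.LCA.H12

open Function

variable {Bd : ℕ}

/-- The primitive recursion. -/
def recF (f g : ℕ → ℕ) (z n : ℕ) : ℕ :=
  Nat.rec (motive := fun _ => ℕ) (f z) (fun y IH => g (Nat.pair z (Nat.pair y IH))) n

theorem recF_succ (f g : ℕ → ℕ) (z n : ℕ) :
    recF f g z (n + 1) = g (Nat.pair z (Nat.pair n (recF f g z n))) := rfl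

/-- The body of the recursion loop. -/
def precBody (R : ℕ) (pg : Cmd) : Cmd :=
  .seq (mp (rho R) (.seq (add 4 1) (.seq (copy 6 2 9) (.seq pairC (.seq (copy 3 2 9) pairC)))))
    (.seq pg (mp (rho R) (.seq (add 1 4) (.inc 6))))

theorem precBody_exec {R Rg cg : ℕ} {pg : Cmd} {g : ℕ → ℕ} (hR : 2 ≤ R) (hRg : Rg ≤ R)
    (hpg : Box pg g Rg cg) (h z l k v : ℕ) (r : ℕ → ℕ)
    (hB1 : Nat.pair z (Nat.pair k v) < Bd) (hB2 : (Nat.pair z (Nat.pair k v) + 2) ^ cg < Bd)
    (hB3 : g (Nat.pair z (Nat.pair k v)) < Bd) (hB4 : k + 1 < Bd) :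
    Exec Bd (precBody R pg) (E R (st h 0 0 z v l k 0 0 0 r))
      (E R (st h 0 0 z (g (Nat.pair z (Nat.pair k v))) l (k + 1) 0 0 0 r)) := by
  have hz : z ≤ Nat.pair z (Nat.pair k v) := Nat.left_le_pair _ _
  have hkv : Nat.pair k v ≤ Nat.pair z (Nat.pair k v) := Nat.right_le_pair _ _
  have hk : k ≤ Nat.pair k v := Nat.left_le_pair _ _
  have hv : v ≤ Nat.pair k v := Nat.right_le_pair _ _
  have s1 := add_exec (Bd := Bd) 4 1 (by norm_num) (by norm_num)
    (st h 0 0 z v l k 0 0 0 r) (by simp only [st4, st1]; omega)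
  simp only [st1, st4, up1, up4, Nat.zero_add] at s1
  have s2 := copy_exec (Bd := Bd) 6 2 9 (by norm_num) (by norm_num) (by norm_num) (by norm_num)
    (by norm_num) (by norm_num) (st h v 0 z 0 l k 0 0 0 r) (by simp) (by simp only [st6, st2]; omega)
  simp only [st2, st6, up2, Nat.zero_add] at s2
  have s3 := pairC_exec (Bd := Bd) h k v z 0 l k r (by omega) (by omega)
  have s4 := copy_exec (Bd := Bd) 3 2 9 (by norm_num) (by norm_num) (by norm_num) (by norm_num)
    (by norm_num) (by norm_num) (st h (Nat.pair k v) 0 z 0 l k 0 0 0 r) (by simp)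
    (by simp only [st3, st2]; omega)
  simp only [st2, st3, up2, Nat.zero_add] at s4
  have s5 := pairC_exec (Bd := Bd) h z (Nat.pair k v) z 0 l k r (by omega) (by omega)
  have s6 := box (R := R) (Bd := Bd) hpg hR hRg
    (st h (Nat.pair z (Nat.pair k v)) 0 z 0 l k 0 0 0 r) (Nat.pair z (Nat.pair k v)) rfl hB2
  rw [up1] at s6
  generalize g (Nat.pair z (Nat.pair k v)) = w at *
  have s7 := add_exec (Bd := Bd) 1 4 (by norm_num) (by norm_num)
    (st h w 0 z 0 l k 0 0 0 r) (by simp only [st4, st1]; omega)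
  simp only [st1, st4, up1, up4, Nat.zero_add] at s7
  have s8 : Exec Bd (.inc 6) (st h 0 0 z w l k 0 0 0 r) (st h 0 0 z w l (k + 1) 0 0 0 r) := by
    have : Exec Bd (.inc 6) (st h 0 0 z w l k 0 0 0 r)
      (update (st h 0 0 z w l k 0 0 0 r) 6 ((st h 0 0 z w l k 0 0 0 r) 6 + 1)) :=
      Exec.inc (by norm_num) (by simp only [st6]; omega)
    simpa using this
  exact Exec.seq (map_exec hR (Exec.seq s1 (Exec.seq s2 (Exec.seq s3 (Exec.seq s4 s5)))))
    (Exec.seq s6 (map_exec hR (Exec.seq s7 s8)))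

theorem precLoop_exec {R Rg cg : ℕ} {pg : Cmd} {f g : ℕ → ℕ} (hR : 2 ≤ R) (hRg : Rg ≤ R)
    (hpg : Box pg g Rg cg) (h z n : ℕ) (r : ℕ → ℕ)
    (hB1 : ∀ k < n, Nat.pair z (Nat.pair k (recF f g z k)) < Bd)
    (hB2 : ∀ k < n, (Nat.pair z (Nat.pair k (recF f g z k)) + 2) ^ cg < Bd)
    (hB3 : ∀ k < n, recF f g z (k + 1) < Bd) (hB4 : n < Bd) :
    Exec Bd (.loop (rho R 5) (.seq (.dec (rho R 5)) (precBody R pg)))
      (E R (st h 0 0 z (f z) n 0 0 0 0 r)) (E R (st h 0 0 z (recF f g z n) 0 n 0 0 0 r)) := by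
  have key := for_exec (Bd := Bd) (i := rho R 5) (p := precBody R pg)
    (fun l => E R (st h 0 0 z (recF f g z (n - l)) l (n - l) 0 0 0 r)) n
    (fun l _ => by rw [E_rho hR]; rfl)
    (fun l hl => by
      rw [update_E hR, up5]
      have e1 : n - l = (n - (l + 1)) + 1 := by omega
      rw [e1, recF_succ]
      have hkn : n - (l + 1) < n := by omega
      generalize n - (l + 1) = k at hkn
      exact precBody_exec hR hRg hpg h z l k (recF f g z k) r (hB1 k hkn) (hB2 k hkn)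
        (hB3 k hkn) (by omega))
  simp only [Nat.sub_self, Nat.sub_zero] at key
  exact key

theorem pprec : ProgPrecStatement := by
  rintro f g c ⟨pf, Rf, cf, hRf, hf, hpf⟩ ⟨pg, Rg, cg, hRg, hg, hpg⟩ hbd
  obtain ⟨⟨pl, Rl, cl, hRl, hl, hpl⟩, ⟨pr, Rr, cr, hRr, hr, hpr⟩⟩ := punp
  change ∀ z n : ℕ, recF f g z n ≤ (z + n + 2) ^ c at hbd
  change Prog fun x => recF f g x.unpair.1 x.unpair.2
  set R := max (max Rf Rg) (max Rl Rr) with hR
  have hR2 : 2 ≤ R := by omega
  set m := 2 * c + 2 with hm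
  set C := cl + cf + cr + (4 * m + 2) + (4 * m + 2) * cg with hC
  have b0 : ∀ (x : ℕ) (a : ℕ), a ≤ C → (x + 2) ^ a ≤ (x + 2) ^ C :=
    fun x a ha => Nat.pow_le_pow_right (by omega) ha
  have brec : ∀ x k : ℕ, k ≤ x.unpair.2 → recF f g x.unpair.1 k ≤ (x + 2) ^ (2 * c) := by
    intro x k hk
    have h1 := hbd x.unpair.1 k
    have h2 := Nat.unpair_left_le x
    have h3 := Nat.unpair_right_le x
    calc recF f g x.unpair.1 k ≤ (x.unpair.1 + k + 2) ^ c := h1
      _ ≤ ((x + 2) ^ 2) ^ c := by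
        apply Nat.pow_le_pow_left
        have := sq_le x
        omega
      _ = (x + 2) ^ (2 * c) := by rw [← pow_mul]
  have bp1 : ∀ x k : ℕ, k ≤ x.unpair.2 →
      Nat.pair k (recF f g x.unpair.1 k) < (x + 2) ^ (2 * m) := by
    intro x k hk
    have h1 := brec x k hk
    have h3 := Nat.unpair_right_le x
    have h4 := pow_add_two_le x (2 * c)
    have h5 : x + 2 ≤ (x + 2) ^ m := by
      calc x + 2 = (x + 2) ^ 1 := (pow_one _).symm
        _ ≤ _ := Nat.pow_le_pow_right (by omega) (by omega)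
    calc Nat.pair k (recF f g x.unpair.1 k) < (max k (recF f g x.unpair.1 k) + 1) ^ 2 :=
          Nat.pair_lt_max_add_one_sq _ _
      _ ≤ ((x + 2) ^ m) ^ 2 := by
        apply Nat.pow_le_pow_left
        rw [← hm] at h4
        omega
      _ = (x + 2) ^ (2 * m) := by rw [← pow_mul]; congr 1; ring
  have bp2 : ∀ x k : ℕ, k ≤ x.unpair.2 →
      Nat.pair x.unpair.1 (Nat.pair k (recF f g x.unpair.1 k)) < (x + 2) ^ (4 * m) := by
    intro x k hk
    have h1 := bp1 x k hk
    have h2 := Nat.unpair_left_le x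
    have h5 : x + 2 ≤ (x + 2) ^ (2 * m) := by
      calc x + 2 = (x + 2) ^ 1 := (pow_one _).symm
        _ ≤ _ := Nat.pow_le_pow_right (by omega) (by omega)
    calc Nat.pair x.unpair.1 (Nat.pair k (recF f g x.unpair.1 k)) <
          (max x.unpair.1 (Nat.pair k (recF f g x.unpair.1 k)) + 1) ^ 2 :=
          Nat.pair_lt_max_add_one_sq _ _
      _ ≤ ((x + 2) ^ (2 * m)) ^ 2 := by
        apply Nat.pow_le_pow_left
        omega
      _ = (x + 2) ^ (4 * m) := by rw [← pow_mul]; congr 1; ring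
  have hFb : ∀ x : ℕ, recF f g x.unpair.1 x.unpair.2 ≤ (x + 2) ^ C :=
    fun x => (brec x _ le_rfl).trans (b0 x _ (by omega))
  refine ⟨.seq (mp (rho R) (copy 1 2 9)) (.seq pl (.seq (mp (rho R) (copy 1 3 9)) (.seq pf
    (.seq (mp (rho R) (.seq (add 1 4) (add 2 1))) (.seq pr (.seq (mp (rho R) (add 1 5))
    (.seq (.loop (rho R 5) (.seq (.dec (rho R 5)) (precBody R pg)))
      (mp (rho R) (.seq (clr 3) (.seq (clr 6) (add 4 1)))))))))))
    , of_st (R := R) (c := C) hR2 hFb ?_⟩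
  intro x Bd a r hB
  have hx2 : x + 2 ≤ (x + 2) ^ C := by
    calc x + 2 = (x + 2) ^ 1 := (pow_one _).symm
      _ ≤ _ := b0 x 1 (by omega)
  have hz := Nat.unpair_left_le x
  have hn := Nat.unpair_right_le x
  have hF0 := hFb x
  have hfz : f x.unpair.1 ≤ (x + 2) ^ C := (brec x 0 (Nat.zero_le _)).trans (b0 x _ (by omega))
  have hBl : (x + 2) ^ cl < Bd := lt_of_le_of_lt (b0 x _ (by omega)) hB
  have hBr : (x + 2) ^ cr < Bd := lt_of_le_of_lt (b0 x _ (by omega)) hB
  have hBf : (x.unpair.1 + 2) ^ cf < Bd :=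
    lt_of_le_of_lt ((Nat.pow_le_pow_left (by omega) cf).trans (b0 x cf (by omega))) hB
  have q1 : ∀ k < x.unpair.2, Nat.pair x.unpair.1 (Nat.pair k (recF f g x.unpair.1 k)) < Bd :=
    fun k hk => ((bp2 x k hk.le).trans_le (b0 x _ (by omega))).trans hB
  have q2 : ∀ k < x.unpair.2,
      (Nat.pair x.unpair.1 (Nat.pair k (recF f g x.unpair.1 k)) + 2) ^ cg < Bd := by
    intro k hk
    refine lt_of_le_of_lt ?_ hB
    calc (Nat.pair x.unpair.1 (Nat.pair k (recF f g x.unpair.1 k)) + 2) ^ cg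
        ≤ ((x + 2) ^ (4 * m + 2)) ^ cg := by
          apply Nat.pow_le_pow_left
          have h1 := bp2 x k hk.le
          have h2 := pow_add_two_le x (4 * m)
          omega
      _ = (x + 2) ^ ((4 * m + 2) * cg) := by rw [← pow_mul]
      _ ≤ _ := b0 x _ (by omega)
  have q3 : ∀ k < x.unpair.2, recF f g x.unpair.1 (k + 1) < Bd :=
    fun k hk => lt_of_le_of_lt ((brec x (k + 1) hk).trans (b0 x _ (by omega))) hB
  have s1 := copy_exec (Bd := Bd) 1 2 9 (by norm_num) (by norm_num) (by norm_num) (by norm_num)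
    (by norm_num) (by norm_num) (st a x 0 0 0 0 0 0 0 0 r) (by simp) (by simp only [st1, st2]; omega)
  simp only [st1, st2, up2, Nat.zero_add] at s1
  have s2 := box (R := R) (Bd := Bd) hpl hR2 (by omega) (st a x x 0 0 0 0 0 0 0 r) x rfl hBl
  rw [up1] at s2
  generalize hzz : x.unpair.1 = z at *
  generalize hnn : x.unpair.2 = n at *
  have s3 := copy_exec (Bd := Bd) 1 3 9 (by norm_num) (by norm_num) (by norm_num) (by norm_num)
    (by norm_num) (by norm_num) (st a z x 0 0 0 0 0 0 0 r) (by simp) (by simp only [st1, st3]; omega)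
  simp only [st1, st3, up3, Nat.zero_add] at s3
  have s4 := box (R := R) (Bd := Bd) hpf hR2 (by omega) (st a z x z 0 0 0 0 0 0 r) z rfl hBf
  rw [up1] at s4
  have s5 := add_exec (Bd := Bd) 1 4 (by norm_num) (by norm_num)
    (st a (f z) x z 0 0 0 0 0 0 r) (by simp only [st4, st1]; omega)
  simp only [st1, st4, up1, up4, Nat.zero_add] at s5
  have s6 := add_exec (Bd := Bd) 2 1 (by norm_num) (by norm_num)
    (st a 0 x z (f z) 0 0 0 0 0 r) (by simp only [st2, st1]; omega)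
  simp only [st1, st2, up1, up2, Nat.zero_add] at s6
  have s7 := box (R := R) (Bd := Bd) hpr hR2 (by omega) (st a x 0 z (f z) 0 0 0 0 0 r) x rfl hBr
  rw [up1] at s7
  simp only [hnn] at s7
  have s8 := add_exec (Bd := Bd) 1 5 (by norm_num) (by norm_num)
    (st a n 0 z (f z) 0 0 0 0 0 r) (by simp only [st5, st1]; omega)
  simp only [st1, st5, up1, up5, Nat.zero_add] at s8
  have s9 := precLoop_exec (Bd := Bd) (f := f) hR2 (by omega) hpg a z n r q1 q2 q3 (by omega)
  have s10 := clr_exec (Bd := Bd) 3 (st a 0 0 z (recF f g z n) 0 n 0 0 0 r)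
  simp only [up3] at s10
  have s11 := clr_exec (Bd := Bd) 6 (st a 0 0 0 (recF f g z n) 0 n 0 0 0 r)
  simp only [up6] at s11
  have s12 := add_exec (Bd := Bd) 4 1 (by norm_num) (by norm_num)
    (st a 0 0 0 (recF f g z n) 0 0 0 0 0 r) (by simp only [st4, st1]; omega)
  simp only [st1, st4, up1, up4, Nat.zero_add] at s12
  exact Exec.seq (map_exec hR2 s1) (Exec.seq s2 (Exec.seq (map_exec hR2 s3) (Exec.seq s4
    (Exec.seq (map_exec hR2 (Exec.seq s5 s6)) (Exec.seq s7 (Exec.seq (map_exec hR2 s8)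
    (Exec.seq s9 (map_exec hR2 (Exec.seq s10 (Exec.seq s11 s12))))))))))

/-- MACHINE -/
theorem machine (hT : TopStatement) : MachineStatement := by
  intro f hf
  apply hT
  induction hf with
  | zero => exact pzero
  | succ => exact psucc
  | left => exact punp.1
  | right => exact punp.2
  | pair _ _ ih1 ih2 => exact ppair _ _ ih1 ih2
  | comp _ _ ih1 ih2 => exact pcomp _ _ ih1 ih2
  | prec c _ _ hb ih1 ih2 => exact pprec _ _ c ih1 ih2 hb

end Pool.Agent.Lib.MP_2eed13_lc.LCA.H12
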